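import Pool.Agent.Y6.F.Stm

/-!
# Project EF: sums of frequencies of the chain, second part
-/

set_option autoImplicit false

open Finset

namespace Pool.Agent.Y261.EF.SUMSb

open Pool.Agent.Y6.F
open Pool.Agent.Y6.M (Z3 nsq len Md br)

theorem al_ge (n : ℕ) : 1000 ≤ al n := by
  induction n with
  | zero =>
    have h : al 0 = 10 ^ 100 := rfl
    rw [h]
    calc 1000 = 10 ^ 3 := by norm_num
      _ ≤ 10 ^ 100 := Nat.pow_le_pow_right (by norm_num) (by norm_num)
  | succ n ih =>
    have h : al (n + 1) = al n ^ (2 * n + 60) := rfl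
    rw [h]
    calc 1000 ≤ al n := ih
      _ = al n ^ 1 := (pow_one _).symm
      _ ≤ al n ^ (2 * n + 60) := Nat.pow_le_pow_right (by omega) (by omega)

theorem al_step (n : ℕ) : 1000 * al n ≤ al (n + 1) := by
  have h : al (n + 1) = al n ^ (2 * n + 60) := rfl
  rw [h]
  calc 1000 * al n ≤ al n * al n := Nat.mul_le_mul_right _ (al_ge n)
    _ = al n ^ 2 := (sq _).symm
    _ ≤ al n ^ (2 * n + 60) := Nat.pow_le_pow_right (by have := al_ge n; omega) (by omega)

theorem al_mono {m n : ℕ} (h : m ≤ n) : al m ≤ al n := by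
  have hm : Monotone al := monotone_nat_of_le_succ fun k => by
    have := al_step k
    omega
  exact hm h

theorem al_lt {m n : ℕ} (h : m < n) : (1000 : ℤ) * al m ≤ al n := by
  have h1 := al_step m
  have h2 := al_mono (Nat.succ_le_of_lt h)
  have h3 : 1000 * al m ≤ al n := h1.trans h2
  exact_mod_cast h3

theorem al_posZ (n : ℕ) : (1000 : ℤ) ≤ al n := by
  exact_mod_cast al_ge n

def jj (n : ℕ) : Fin 3 := ⟨n % 3, Nat.mod_lt _ (by norm_num)⟩

def pk : ℕ → Z3
  | 0 => 0
  | n + 1 => kx n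

theorem kx_jj (n : ℕ) : kx n (jj n) = (al n : ℤ) := if_pos rfl

theorem kx_off {n : ℕ} {j : Fin 3} (h : j ≠ jj n) : kx n j = 0 :=
  if_neg (fun h' => h (Fin.ext h'))

theorem kx_abs (n : ℕ) (j : Fin 3) : |kx n j| ≤ (al n : ℤ) := by
  unfold kx
  split_ifs
  · simp
  · simp

theorem pk_jj (n : ℕ) : pk n (jj n) = 0 := by
  cases n with
  | zero => rfl
  | succ m =>
    refine kx_off (fun h => ?_)
    have h1 : (m + 1) % 3 = m % 3 := congrArg Fin.val h
    omega

theorem pk_abs (n : ℕ) (j : Fin 3) : 1000 * |pk n j| ≤ (al n : ℤ) := by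
  cases n with
  | zero =>
    have h : pk 0 j = 0 := rfl
    rw [h, abs_zero, mul_zero]
    have := al_posZ 0
    linarith
  | succ m =>
    have h1 : |kx m j| ≤ (al m : ℤ) := kx_abs m j
    have h3 : (1000 : ℤ) * al m ≤ al (m + 1) := al_lt (Nat.lt_succ_self m)
    have h4 : pk (m + 1) j = kx m j := rfl
    rw [h4]
    linarith

/-- `k` is the frequency of a main mode of the level `n` -/
structure Rep (k : Z3) (n : ℕ) (s t : ℤ) : Prop where
  hs : s = 1 ∨ s = -1
  ht : t = 0 ∨ (t = 1 ∧ n ≠ 0)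
  hk : ∀ j, k j = s * (kx n j + t * pk n j)

theorem Rep.neg {k : Z3} {n : ℕ} {s t : ℤ} (h : Rep k n s t) : Rep (-k) n (-s) t := by
  refine ⟨?_, h.ht, fun j => ?_⟩
  · rcases h.hs with h1 | h1
    · right; rw [h1]
    · left; rw [h1]; norm_num
  · rw [Pi.neg_apply, h.hk j]; ring

theorem Rep.abs_s {k : Z3} {n : ℕ} {s t : ℤ} (h : Rep k n s t) : |s| = 1 := by
  rcases h.hs with h1 | h1 <;> rw [h1] <;> norm_num

theorem Rep.abs_t {k : Z3} {n : ℕ} {s t : ℤ} (h : Rep k n s t) : |t| ≤ 1 := by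
  rcases h.ht with h1 | h1
  · rw [h1]; norm_num
  · rw [h1.1]; norm_num

theorem Rep.top {k : Z3} {n : ℕ} {s t : ℤ} (h : Rep k n s t) : k (jj n) = s * al n := by
  rw [h.hk, kx_jj, pk_jj]; ring

theorem Rep.off {k : Z3} {n : ℕ} {s t : ℤ} (h : Rep k n s t) {j : Fin 3} (hj : j ≠ jj n) :
    1000 * |k j| ≤ (al n : ℤ) := by
  rw [h.hk, kx_off hj, zero_add, abs_mul, abs_mul, h.abs_s, one_mul]
  have h1 := pk_abs n j
  have h2 := h.abs_t
  have h3 : |t| * |pk n j| ≤ 1 * |pk n j| := mul_le_mul_of_nonneg_right h2 (abs_nonneg _)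
  linarith

theorem Rep.abs_top {k : Z3} {n : ℕ} {s t : ℤ} (h : Rep k n s t) : |k (jj n)| = al n := by
  rw [h.top, abs_mul, h.abs_s, one_mul]
  exact abs_of_nonneg (by have := al_posZ n; linarith)

theorem Rep.bd {k : Z3} {n : ℕ} {s t : ℤ} (h : Rep k n s t) (j : Fin 3) : |k j| ≤ (al n : ℤ) := by
  by_cases hj : j = jj n
  · rw [hj, h.abs_top]
  · have h1 := h.off hj
    have h2 := abs_nonneg (k j)
    linarith

theorem abs_le_len (k : Z3) (j : Fin 3) : (|k j| : ℤ) ≤ len k := by
  have h : (k j) ^ 2 ≤ nsq k := by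
    unfold nsq
    exact Finset.single_le_sum (f := fun j => (k j) ^ 2) (fun _ _ => sq_nonneg _)
      (Finset.mem_univ j)
  have h1 : ((k j : ℤ) : ℝ) ^ 2 ≤ (nsq k : ℝ) := by exact_mod_cast h
  rw [Int.cast_abs]
  exact Real.abs_le_sqrt h1

theorem len_neg (k : Z3) : len (-k) = len k := by
  have h : nsq (-k) = nsq k := by
    unfold nsq
    refine Finset.sum_congr rfl fun j _ => ?_
    rw [Pi.neg_apply]; ring
  unfold len
  rw [h]

theorem Rep.len_ge {k : Z3} {n : ℕ} {s t : ℤ} (h : Rep k n s t) : αM n ≤ len k := by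
  have h1 := abs_le_len k (jj n)
  rw [h.abs_top] at h1
  exact_mod_cast h1

theorem Rep.len_le {k : Z3} {n : ℕ} {s t : ℤ} (h : Rep k n s t) : len k ≤ 11 / 10 * αM n := by
  have h0 := al_posZ n
  have key : 100 * nsq k ≤ 121 * (al n : ℤ) ^ 2 := by
    have e : ∀ j, j ≠ jj n → 1000 * k j ^ 2 ≤ (al n : ℤ) ^ 2 := by
      intro j hj
      have h1 := h.off hj
      have h2 := abs_nonneg (k j)
      have h3 : k j ^ 2 = |k j| ^ 2 := (sq_abs _).symm
      rw [h3]
      nlinarith
    have f : k (jj n) ^ 2 = (al n : ℤ) ^ 2 := by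
      rw [← sq_abs, h.abs_top]
    have g : ∀ j, j ≠ jj n ∨ j = jj n := fun j => (em _).symm
    have hn : nsq k = k 0 ^ 2 + k 1 ^ 2 + k 2 ^ 2 := by
      unfold nsq
      exact Fin.sum_univ_three _
    have hjj : jj n = 0 ∨ jj n = 1 ∨ jj n = 2 := by
      generalize jj n = x
      fin_cases x
      · left; rfl
      · right; left; rfl
      · right; right; rfl
    have hA : 0 ≤ (al n : ℤ) ^ 2 := sq_nonneg _
    rw [hn]
    rcases hjj with hj | hj | hj
    · have h1 := e 1 (by rw [hj]; decide)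
      have h2 := e 2 (by rw [hj]; decide)
      rw [hj] at f
      linarith
    · have h1 := e 0 (by rw [hj]; decide)
      have h2 := e 2 (by rw [hj]; decide)
      rw [hj] at f
      linarith
    · have h1 := e 0 (by rw [hj]; decide)
      have h2 := e 1 (by rw [hj]; decide)
      rw [hj] at f
      linarith
  have key' : (100 : ℝ) * (nsq k : ℝ) ≤ 121 * (al n : ℝ) ^ 2 := by exact_mod_cast key
  have h1 : (0 : ℝ) ≤ 11 / 10 * αM n := by
    unfold αM; positivity
  unfold len
  rw [Real.sqrt_le_left h1]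
  unfold αM
  nlinarith

theorem pair_lt {k k' : Z3} {n m : ℕ} {s t s' t' : ℤ} (h : Rep k n s t) (h' : Rep k' m s' t')
    (hm : m < n) : 9 * (al n : ℤ) ≤ 10 * |(k + k') (jj n)| := by
  have h1 := h.abs_top
  have h2 := h'.bd (jj n)
  have h3 := al_lt hm
  have h4 : |k (jj n)| ≤ |(k + k') (jj n)| + |k' (jj n)| := by
    have h5 : k (jj n) = (k + k') (jj n) - k' (jj n) := by
      rw [Pi.add_apply]; ring
    calc |k (jj n)| = |(k + k') (jj n) - k' (jj n)| := by rw [← h5]
      _ ≤ _ := abs_sub _ _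
  have h6 := al_posZ m
  linarith

theorem pair_eq {k k' : Z3} {n : ℕ} {s t s' t' : ℤ} (h : Rep k n s t) (h' : Rep k' n s' t') :
    2 * (al n : ℤ) ≤ |(k + k') (jj n)| ∨ (s' = -s ∧ ∀ j, (k + k') j = s * (t - t') * pk n j) := by
  have e1 := h.top
  have e2 := h'.top
  have h0 := al_posZ n
  have A : s' = s → 2 * (al n : ℤ) ≤ |(k + k') (jj n)| := by
    intro hs
    have e3 : (k + k') (jj n) = s * (2 * (al n : ℤ)) := by
      rw [Pi.add_apply, e1, e2, hs]; ring
    rw [e3, abs_mul, h.abs_s, one_mul]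
    exact le_abs_self _
  have B : s' = -s → ∀ j, (k + k') j = s * (t - t') * pk n j := by
    intro hs j
    rw [Pi.add_apply, h.hk, h'.hk, hs]; ring
  rcases h.hs with h1 | h1 <;> rcases h'.hs with h2 | h2
  · exact Or.inl (A (by rw [h1, h2]))
  · exact Or.inr ⟨by rw [h1, h2], B (by rw [h1, h2])⟩
  · exact Or.inr ⟨by rw [h1, h2]; norm_num, B (by rw [h1, h2]; norm_num)⟩
  · exact Or.inl (A (by rw [h1, h2]))

theorem main_rep (hLV : S_LV) (i : Md) (hi : σM i = 0) :
    ∃ s t, Rep i.1.1 (lvM i) s t ∧ (i.2 = true ↔ t = 0) := by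
  obtain ⟨h1, h2, h3, -⟩ := hLV
  have eX : ∀ n, Rep (kx n) n 1 0 := fun n =>
    ⟨Or.inl rfl, Or.inl rfl, fun j => by ring⟩
  have eY : ∀ n, Rep (kx n + kx (n + 1)) (n + 1) 1 1 := fun n =>
    ⟨Or.inl rfl, Or.inr ⟨rfl, Nat.succ_ne_zero n⟩, fun j => by
      have : pk (n + 1) j = kx n j := rfl
      rw [this, Pi.add_apply]; ring⟩
  obtain ⟨n, rfl | rfl | rfl | rfl⟩ := h3 i hi
  · refine ⟨1, 0, ?_, ?_⟩
    · rw [(h1 n).1]; exact eX n
    · exact ⟨fun _ => rfl, fun _ => rfl⟩
  · refine ⟨-1, 0, ?_, ?_⟩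
    · rw [(h1 n).2.1]; exact (eX n).neg
    · exact ⟨fun _ => rfl, fun _ => rfl⟩
  · refine ⟨1, 1, ?_, ?_⟩
    · rw [(h1 n).2.2.1]; exact eY n
    · exact ⟨fun h => absurd h (by show ¬ (false = true); decide), fun h => by omega⟩
  · refine ⟨-1, 1, ?_, ?_⟩
    · rw [(h1 n).2.2.2]; exact (eY n).neg
    · exact ⟨fun h => absurd h (by show ¬ (false = true); decide), fun h => by omega⟩

theorem len_of_abs {k : Z3} {j : Fin 3} {c d : ℤ} {a : ℕ} (h : c * (al a : ℤ) ≤ d * |k j|)
    (hd : 0 ≤ d) : (c : ℝ) * αM a ≤ d * len k := by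
  have h1 := abs_le_len k j
  have h2 : ((c * (al a : ℤ) : ℤ) : ℝ) ≤ ((d * |k j| : ℤ) : ℝ) := by exact_mod_cast h
  rw [Int.cast_mul, Int.cast_mul] at h2
  have h3 : (d : ℝ) * ((|k j| : ℤ) : ℝ) ≤ d * len k :=
    mul_le_mul_of_nonneg_left h1 (by exact_mod_cast hd)
  have h4 : ((al a : ℤ) : ℝ) = αM a := by unfold αM; norm_cast
  rw [h4] at h2
  linarith

/-- the trichotomy for the sum of two frequencies -/
theorem tri (hLV : S_LV) {a b : Md} (ha : σM a = 0) (hb : σM b = 0) (hne : a.1.1 + b.1.1 ≠ 0) :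
    (len a.1.1 ≤ 4 * len (a.1.1 + b.1.1) ∧ len b.1.1 ≤ 4 * len (a.1.1 + b.1.1)) ∨
    ∃ n, lvM a = n + 1 ∧ lvM b = n + 1 ∧ len (a.1.1 + b.1.1) = αM n ∧ a.2 ≠ b.2 := by
  obtain ⟨s, t, ra, hta⟩ := main_rep hLV a ha
  obtain ⟨s', t', rb, htb⟩ := main_rep hLV b hb
  have la := ra.len_le
  have lb := rb.len_le
  rcases lt_trichotomy (lvM a) (lvM b) with hlt | heq | hgt
  · left
    have h1 := pair_lt rb ra hlt
    have h2 := len_of_abs h1 (by norm_num)
    rw [add_comm b.1.1] at h2
    have h3 : αM (lvM a) ≤ αM (lvM b) := by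
      unfold αM
      exact_mod_cast al_mono hlt.le
    push_cast at h2
    have h4 : 0 ≤ αM (lvM b) := by unfold αM; positivity
    constructor <;> linarith
  · rw [← heq] at rb lb
    rcases pair_eq ra rb with h1 | ⟨h1, h2⟩
    · left
      have h2 := len_of_abs (d := 1) (h1.trans (one_mul _).ge) (by norm_num)
      push_cast at h2
      have h4 : 0 ≤ αM (lvM a) := by unfold αM; positivity
      constructor <;> linarith
    · right
      obtain ⟨j, hj⟩ : ∃ j, (a.1.1 + b.1.1) j ≠ 0 := by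
        by_contra hcon
        push Not at hcon
        exact hne (funext hcon)
      have htt : t ≠ t' := by
        intro h
        apply hj
        rw [h2 j, h]; ring
      have hn0 : lvM a ≠ 0 := by
        intro h
        apply hj
        rw [h2 j, h]
        have : pk 0 j = 0 := rfl
        rw [this, mul_zero]
      obtain ⟨n, hn⟩ := Nat.exists_eq_succ_of_ne_zero hn0
      refine ⟨n, hn, by rw [← heq]; exact hn, ?_, ?_⟩
      · have hkk : ∀ j, (a.1.1 + b.1.1) j = s * (t - t') * kx n j := by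
          intro j
          rw [h2 j, hn]; rfl
        have hst : (s * (t - t')) ^ 2 = 1 := by
          have hs2 : s ^ 2 = 1 := by rcases ra.hs with h | h <;> rw [h] <;> norm_num
          have ht2 : (t - t') ^ 2 = 1 := by
            rcases ra.ht with h | ⟨h, -⟩ <;> rcases rb.ht with h' | ⟨h', -⟩
            · exact absurd (h.trans h'.symm) htt
            · rw [h, h']; norm_num
            · rw [h, h']; norm_num
            · exact absurd (h.trans h'.symm) htt
          rw [mul_pow, hs2, ht2]; norm_num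
        have hnsq : nsq (a.1.1 + b.1.1) = (al n : ℤ) ^ 2 := by
          have e1 : nsq (a.1.1 + b.1.1) = ∑ j, kx n j ^ 2 := by
            unfold nsq
            refine Finset.sum_congr rfl fun j _ => ?_
            rw [hkk j, mul_pow, hst, one_mul]
          rw [e1, Finset.sum_eq_single (jj n)]
          · rw [kx_jj]
          · intro j _ hj
            rw [kx_off hj]; norm_num
          · intro h
            exact absurd (Finset.mem_univ _) h
        unfold len
        rw [hnsq]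
        push_cast
        unfold αM
        exact Real.sqrt_sq (by positivity)
      · intro hab
        have h5 : t = 0 ↔ t' = 0 := by rw [← hta, ← htb, hab]
        rcases ra.ht with h | ⟨h, -⟩ <;> rcases rb.ht with h' | ⟨h', -⟩
        · exact htt (h.trans h'.symm)
        · have := h5.1 h; omega
        · have := h5.2 h'; omega
        · exact htt (h.trans h'.symm)
  · left
    have h1 := pair_lt ra rb hgt
    have h2 := len_of_abs h1 (by norm_num)
    have h3 : αM (lvM b) ≤ αM (lvM a) := by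
      unfold αM
      exact_mod_cast al_mono hgt.le
    push_cast at h2
    have h4 : 0 ≤ αM (lvM a) := by unfold αM; positivity
    constructor <;> linarith

theorem inj (hLV : S_LV) {a b : Md} (ha : σM a = 0) (hb : σM b = 0) (h : a.1.1 = b.1.1) :
    a = b := by
  obtain ⟨s, t, ra, hta⟩ := main_rep hLV a ha
  obtain ⟨s', t', rb, htb⟩ := main_rep hLV b hb
  have hz : ∀ j, (a.1.1 + -b.1.1) j = 0 := by
    intro j
    rw [Pi.add_apply, Pi.neg_apply, h]; ring
  have hz' : ∀ j, (-b.1.1 + a.1.1) j = 0 := by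
    intro j
    rw [Pi.add_apply, Pi.neg_apply, h]; ring
  have h2 : a.2 = b.2 := by
    rcases lt_trichotomy (lvM a) (lvM b) with hlt | heq | hgt
    · have h1 := pair_lt rb.neg ra hlt
      rw [hz', abs_zero] at h1
      have := al_posZ (lvM b)
      omega
    · rw [← heq] at rb
      rcases pair_eq ra rb.neg with h1 | ⟨h1, h2⟩
      · rw [hz, abs_zero] at h1
        have := al_posZ (lvM a)
        omega
      · have htt : t = t' := by
          by_contra htt
          have hn0 : lvM a ≠ 0 := by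
            rcases ra.ht with h | ⟨h, hn⟩
            · rcases rb.ht with h' | ⟨h', hn⟩
              · exact absurd (h.trans h'.symm) htt
              · exact hn
            · exact hn
          obtain ⟨n, hn⟩ := Nat.exists_eq_succ_of_ne_zero hn0
          have h3 := h2 (jj n)
          have h4 : pk (lvM a) (jj n) = al n := by
            rw [hn]; exact kx_jj n
          rw [hz, h4] at h3
          have h5 := al_posZ n
          have h6 : s * (t - t') ≠ 0 := by
            refine mul_ne_zero ?_ (sub_ne_zero.2 htt)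
            rcases ra.hs with h | h <;> rw [h] <;> norm_num
          have h7 : (al n : ℤ) ≠ 0 := by omega
          exact mul_ne_zero h6 h7 h3.symm
        have h5 : (a.2 = true ↔ b.2 = true) := by rw [hta, htb, htt]
        exact Bool.eq_iff_iff.2 h5
    · have h1 := pair_lt ra rb.neg hgt
      rw [hz, abs_zero] at h1
      have := al_posZ (lvM a)
      omega
  exact Prod.ext (Subtype.ext h) h2

/-- the main modes of the level `n` -/
def T : ℕ → Bool → Bool → Md
  | n, s, false => if s then Xm n else br (Xm n)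
  | 0, _, true => Xm 0
  | n + 1, s, true => if s then Ym n else br (Ym n)

theorem exT (hLV : S_LV) (i : Md) (hi : σM i = 0) : ∃ s t, i = T (lvM i) s t := by
  obtain ⟨h1, h2, h3, -⟩ := hLV
  obtain ⟨n, h | h | h | h⟩ := h3 i hi
  · refine ⟨true, false, ?_⟩
    rw [h, (h1 n).1]; rfl
  · refine ⟨false, false, ?_⟩
    rw [h, (h1 n).2.1]; rfl
  · refine ⟨true, true, ?_⟩
    rw [h, (h1 n).2.2.1]; rfl
  · refine ⟨false, true, ?_⟩
    rw [h, (h1 n).2.2.2]; rfl

/-- the top level of a pair -/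
theorem topU (hLV : S_LV) {a b : Md} (ha : σM a = 0) (hb : σM b = 0) (j : Fin 3) :
    |(a.1.1 + b.1.1) j| ≤ 2 * (al (max (lvM a) (lvM b)) : ℤ) := by
  obtain ⟨s, t, ra, hta⟩ := main_rep hLV a ha
  obtain ⟨s', t', rb, htb⟩ := main_rep hLV b hb
  have h1 := ra.bd j
  have h2 := rb.bd j
  have h3 : (al (lvM a) : ℤ) ≤ al (max (lvM a) (lvM b)) := by
    exact_mod_cast al_mono (le_max_left _ _)
  have h4 : (al (lvM b) : ℤ) ≤ al (max (lvM a) (lvM b)) := by
    exact_mod_cast al_mono (le_max_right _ _)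
  rw [Pi.add_apply]
  have h5 := abs_add_le (a.1.1 j) (b.1.1 j)
  linarith

theorem topL (hLV : S_LV) {a b : Md} (ha : σM a = 0) (hb : σM b = 0) (hne : a.1.1 + b.1.1 ≠ 0)
    {n : ℕ} (hn : max (lvM a) (lvM b) = n + 1) :
    ∃ j, 9 * (al n : ℤ) ≤ 10 * |(a.1.1 + b.1.1) j| := by
  obtain ⟨s, t, ra, hta⟩ := main_rep hLV a ha
  obtain ⟨s', t', rb, htb⟩ := main_rep hLV b hb
  have hstep := al_lt (Nat.lt_succ_self n)
  have h0 := al_posZ n
  rcases lt_trichotomy (lvM a) (lvM b) with hlt | heq | hgt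
  · have e : lvM b = n + 1 := by omega
    have h1 := pair_lt rb ra hlt
    rw [add_comm b.1.1] at h1
    refine ⟨jj (lvM b), ?_⟩
    rw [e] at h1 ⊢
    have h2 : (1000 : ℤ) * al n ≤ al (n + 1) := hstep
    linarith
  · have e : lvM a = n + 1 := by omega
    rw [← heq] at rb
    rw [e] at ra rb
    rcases pair_eq ra rb with h1 | ⟨h1, h2⟩
    · refine ⟨jj (n + 1), ?_⟩
      have h2 : (1000 : ℤ) * al n ≤ al (n + 1) := hstep
      linarith
    · have htt : s * (t - t') ≠ 0 := by
        intro h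
        apply hne
        funext j
        rw [h2 j, h, zero_mul]; rfl
      refine ⟨jj n, ?_⟩
      have h4 : pk (n + 1) (jj n) = al n := kx_jj n
      rw [h2, h4, abs_mul]
      have h5 : 1 ≤ |s * (t - t')| := Int.one_le_abs htt
      have h6 : |(al n : ℤ)| = al n := abs_of_nonneg (by linarith)
      rw [h6]
      nlinarith
  · have e : lvM a = n + 1 := by omega
    have h1 := pair_lt ra rb hgt
    refine ⟨jj (lvM a), ?_⟩
    rw [e] at h1 ⊢
    have h2 : (1000 : ℤ) * al n ≤ al (n + 1) := hstep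
    linarith

theorem part1 (hLV : S_LV) (k : Z3) (hk : k ≠ 0) :
    {p : Md × Md | σM p.1 = 0 ∧ σM p.2 = 0 ∧ p.1.1.1 + p.2.1.1 = k}.Finite ∧
    {p : Md × Md | σM p.1 = 0 ∧ σM p.2 = 0 ∧ p.1.1.1 + p.2.1.1 = k}.ncard ≤ 32 := by
  classical
  set S := {p : Md × Md | σM p.1 = 0 ∧ σM p.2 = 0 ∧ p.1.1.1 + p.2.1.1 = k} with hS
  by_cases hemp : S = ∅
  · rw [hemp]
    exact ⟨Set.finite_empty, by rw [Set.ncard_empty]; norm_num⟩
  obtain ⟨p0, hp0⟩ := Set.nonempty_iff_ne_empty.2 hemp
  have hex : ∃ N, ∀ j, |k j| ≤ 2 * (al N : ℤ) := by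
    refine ⟨max (lvM p0.1) (lvM p0.2), fun j => ?_⟩
    have h1 := topU hLV hp0.1 hp0.2.1 j
    rw [hp0.2.2] at h1
    exact h1
  set N := Nat.find hex with hN
  have hN1 : ∀ j, |k j| ≤ 2 * (al N : ℤ) := Nat.find_spec hex
  have hlev : ∀ p ∈ S, max (lvM p.1) (lvM p.2) = N ∨ max (lvM p.1) (lvM p.2) = N + 1 := by
    intro p hp
    have h1 : N ≤ max (lvM p.1) (lvM p.2) := by
      refine Nat.find_min' hex fun j => ?_
      have h1 := topU hLV hp.1 hp.2.1 j
      rw [hp.2.2] at h1
      exact h1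
    have h2 : max (lvM p.1) (lvM p.2) ≤ N + 1 := by
      rcases Nat.eq_zero_or_pos (max (lvM p.1) (lvM p.2)) with h | h
      · omega
      · obtain ⟨n, hn⟩ := Nat.exists_eq_succ_of_ne_zero (Nat.pos_iff_ne_zero.1 h)
        obtain ⟨j, hj⟩ := topL hLV hp.1 hp.2.1 (by rw [hp.2.2]; exact hk) hn
        rw [hp.2.2] at hj
        have h3 := hN1 j
        by_contra hcon
        have h4 : N < n := by omega
        have h5 := al_lt h4
        have h6 := al_posZ N
        linarith
    omega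
  let g : Z3 → Md := fun F => if h : ∃ i : Md, σM i = 0 ∧ i.1.1 = F then h.choose else Xm 0
  have hg : ∀ i : Md, σM i = 0 → g i.1.1 = i := by
    intro i hi
    have hex' : ∃ i' : Md, σM i' = 0 ∧ i'.1.1 = i.1.1 := ⟨i, hi, rfl⟩
    have e : g i.1.1 = hex'.choose := dif_pos hex'
    rw [e]
    exact inj hLV hex'.choose_spec.1 hi hex'.choose_spec.2
  let f : Bool × Bool × Bool × Bool → Md × Md := fun q =>
    if q.2.2.2 then (T (if q.1 then N + 1 else N) q.2.1 q.2.2.1,
      g (k - (T (if q.1 then N + 1 else N) q.2.1 q.2.2.1).1.1))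
    else (g (k - (T (if q.1 then N + 1 else N) q.2.1 q.2.2.1).1.1),
      T (if q.1 then N + 1 else N) q.2.1 q.2.2.1)
  have hsub : S ⊆ f '' Set.univ := by
    intro p hp
    obtain ⟨e, he⟩ : ∃ e : Bool, max (lvM p.1) (lvM p.2) = if e then N + 1 else N := by
      rcases hlev p hp with h | h
      · exact ⟨false, h⟩
      · exact ⟨true, h⟩
    rcases le_total (lvM p.2) (lvM p.1) with hle | hle
    · obtain ⟨s, t, hst⟩ := exT hLV p.1 hp.1
      rw [max_eq_left hle] at he
      rw [he] at hst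
      refine ⟨(e, s, t, true), Set.mem_univ _, ?_⟩
      show (T (if e then N + 1 else N) s t, g (k - (T (if e then N + 1 else N) s t).1.1)) = p
      rw [← hst]
      have h1 : k - p.1.1.1 = p.2.1.1 := by rw [← hp.2.2]; abel
      rw [h1, hg _ hp.2.1]
    · obtain ⟨s, t, hst⟩ := exT hLV p.2 hp.2.1
      rw [max_eq_right hle] at he
      rw [he] at hst
      refine ⟨(e, s, t, false), Set.mem_univ _, ?_⟩
      show (g (k - (T (if e then N + 1 else N) s t).1.1), T (if e then N + 1 else N) s t) = p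
      rw [← hst]
      have h1 : k - p.2.1.1 = p.1.1.1 := by rw [← hp.2.2]; abel
      rw [h1, hg _ hp.1]
  have hfin : (f '' Set.univ).Finite := Set.toFinite _
  refine ⟨hfin.subset hsub, ?_⟩
  calc S.ncard ≤ (f '' Set.univ).ncard := Set.ncard_le_ncard hsub hfin
    _ ≤ (Set.univ : Set (Bool × Bool × Bool × Bool)).ncard := Set.ncard_image_le Set.finite_univ
    _ = 16 := by rw [Set.ncard_univ]; simp
    _ ≤ 32 := by norm_num

theorem t_SUMSb : Pool.Agent.Y6.F.S_LV → Pool.Agent.Y6.F.S_SUMSb := by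
  intro hLV
  refine ⟨part1 hLV, ?_, ?_⟩
  · intro i a b ha hb h
    have hne : a.1.1 + b.1.1 ≠ 0 := by rw [h]; exact i.1.2
    rcases tri hLV ha hb hne with h1 | ⟨n, h1, h2, h3, -⟩
    · left
      rw [h] at h1
      exact h1
    · right
      rw [h] at h3
      obtain ⟨s, t, ra, hta⟩ := main_rep hLV a ha
      obtain ⟨s', t', rb, htb⟩ := main_rep hLV b hb
      rw [h1] at ra
      rw [h2] at rb
      exact ⟨n, h3, ra.len_ge, rb.len_ge⟩
  · intro i a hi ha hne h
    have h5 := hLV.2.2.2.2.1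
    have hba : σM (br a) = 0 := by rw [(h5 a).2.2, ha, neg_zero]
    have e : i.1.1 + (br a).1.1 = i.1.1 - a.1.1 := by
      show i.1.1 + -a.1.1 = _
      abel
    rcases tri hLV hi hba (by rw [e]; exact sub_ne_zero.2 hne) with h1 | ⟨n, h1, h2, h3, h4⟩
    · exfalso
      have h2 := h1.1
      rw [e] at h2
      have h3 : ln i = len i.1.1 := rfl
      rw [h3] at h
      linarith
    · rw [e] at h3
      rw [(h5 a).2.1] at h2
      exact ⟨n, h1, h2, h3, h4⟩

end Pool.Agent.Y261.EF.SUMSb
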